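import Pool.Agent.H55.BP.Targets

/-!
Board bpl_modules (MP_bacf0e_co), row EB: the Euler bound for weak drawings of bipartite graphs.
-/

set_option autoImplicit false

open Finset Pool.Agent.H55.BP

namespace Pool.Agent.H1.BPL

variable {V : Type}

theorem wd_mono {E E' : Finset (V × V)} (h : E' ⊆ E) (hE : WD E) : WD E' := by
  obtain ⟨pt, S, h1, h2⟩ := hE
  exact ⟨pt, S, fun e he => h1 e (h he), fun e he f hf => h2 e (h he) f (h hf)⟩

theorem wd_swap [DecidableEq V] {E : Finset (V × V)} (hE : WD E) : WD (E.image Prod.swap) := by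
  obtain ⟨pt, S, h1, h2⟩ := hE
  refine ⟨pt, fun u v => S v u, ?_, ?_⟩
  · intro e he
    obtain ⟨f, hf, rfl⟩ := mem_image.1 he
    exact (h1 f hf).symm
  · intro e he f hf h3 h4
    obtain ⟨e', he', rfl⟩ := mem_image.1 he
    obtain ⟨f', hf', rfl⟩ := mem_image.1 hf
    exact h2 e' he' f' hf' h4 h3

/-- the hypotheses -/
def Hy [DecidableEq V] (c : V → Bool) (S : Finset V) (E : Finset (V × V)) : Prop :=
  ∀ e ∈ E, e.1 ∈ S ∧ e.2 ∈ S ∧ c e.1 = true ∧ c e.2 = false

/-- the induction hypothesis -/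
def IH (V : Type) [DecidableEq V] (n : ℕ) : Prop :=
  ∀ (c : V → Bool) (S : Finset V) (E : Finset (V × V)), S.card < n → Hy c S E → WD E →
    3 ≤ S.card → E.card + 4 ≤ 2 * S.card

/-- chains of edges -/
theorem chain (E : Finset (V × V)) (pt : V → ℂ) (S : V → V → Set ℂ)
    (h1 : ∀ e ∈ E, JoinedIn (S e.1 e.2) (pt e.1) (pt e.2)) (Z : Set V) (z w q : V)
    (hw : w ∈ Z) (hwq : (w, q) ∈ E)
    (hr : Relation.ReflTransGen (fun u v => u ∈ Z ∧ v ∈ Z ∧ ((u, v) ∈ E ∨ (v, u) ∈ E)) z w) :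
    JoinedIn (⋃ e ∈ {e : V × V | e ∈ E ∧ e.1 ∈ Z ∧ (e.2 = q ∨ e.2 ∈ Z)}, S e.1 e.2)
      (pt z) (pt q) := by
  set T : Set ℂ := ⋃ e ∈ {e : V × V | e ∈ E ∧ e.1 ∈ Z ∧ (e.2 = q ∨ e.2 ∈ Z)}, S e.1 e.2 with hT
  have hsub : ∀ e : V × V, e ∈ E → e.1 ∈ Z → (e.2 = q ∨ e.2 ∈ Z) → S e.1 e.2 ⊆ T := by
    intro e he h2 h3
    rw [hT]
    exact Set.subset_biUnion_of_mem (u := fun e : V × V => S e.1 e.2) (show e ∈ {e : V × V |
      e ∈ E ∧ e.1 ∈ Z ∧ (e.2 = q ∨ e.2 ∈ Z)} from ⟨he, h2, h3⟩)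
  have key : ∀ v, Relation.ReflTransGen
      (fun u v => u ∈ Z ∧ v ∈ Z ∧ ((u, v) ∈ E ∨ (v, u) ∈ E)) z v →
      ∀ u : ℂ, JoinedIn T (pt v) u → JoinedIn T (pt z) u := by
    intro v hv
    induction hv with
    | refl => exact fun u h => h
    | tail _ hst ih =>
      intro u hu
      apply ih
      obtain ⟨ha, hb, h4 | h4⟩ := hst
      · exact ((h1 _ h4).mono (hsub _ h4 ha (Or.inr hb))).trans hu
      · exact ((h1 _ h4).symm.mono (hsub _ h4 hb (Or.inr ha))).trans hu
  exact key w hr _ ((h1 _ hwq).mono (hsub _ hwq hw (Or.inl rfl)))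

open Classical in
/-- the separation argument: `b₁` has a neighbour in the component of `z` -/
theorem claim [DecidableEq V] (c : V → Bool) (S : Finset V) (E : Finset (V × V))
    (hIH : IH V S.card) (hE : Hy c S E) (hWD : WD E) (hcard : 2 * S.card < E.card + 4)
    (x y z b b1 b2 : V) (hxy : x ≠ y) (hxz : x ≠ z) (hyz : y ≠ z) (hbb1 : b ≠ b1) (hbb2 : b ≠ b2)
    (hb12 : b1 ≠ b2) (hxb : (x, b) ∈ E) (_hyb : (y, b) ∈ E) (hzb : (z, b) ∈ E)
    (hnb : ∀ w, (w, b) ∈ E → w = x ∨ w = y ∨ w = z) (hxb1 : (x, b1) ∈ E)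
    (hxb2 : (x, b2) ∈ E) (hyb2 : (y, b2) ∈ E) (Z : Finset V)
    (hZ : ∀ w, w ∈ Z ↔ Relation.ReflTransGen (fun u v =>
      (u ∈ S ∧ u ≠ x ∧ u ≠ y ∧ u ≠ b ∧ u ≠ b1 ∧ u ≠ b2) ∧
      (v ∈ S ∧ v ≠ x ∧ v ≠ y ∧ v ≠ b ∧ v ≠ b1 ∧ v ≠ b2) ∧ ((u, v) ∈ E ∨ (v, u) ∈ E)) z w) :
    ∃ w ∈ Z, (w, b1) ∈ E := by
  by_contra hno
  push Not at hno
  obtain ⟨hxS, hbS, hcx, hcb⟩ := hE _ hxb
  obtain ⟨hyS, hb2S, hcy, hcb2⟩ := hE _ hyb2
  obtain ⟨hzS, _, hcz, _⟩ := hE _ hzb
  obtain ⟨_, hb1S, _, hcb1⟩ := hE _ hxb1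
  have hne : ∀ {u v : V}, c u = true → c v = false → u ≠ v := by
    rintro u v h1 h2 rfl
    rw [h1] at h2
    exact Bool.noConfusion h2
  have hzU : z ∈ S ∧ z ≠ x ∧ z ≠ y ∧ z ≠ b ∧ z ≠ b1 ∧ z ≠ b2 :=
    ⟨hzS, hxz.symm, hyz.symm, hne hcz hcb, hne hcz hcb1, hne hcz hcb2⟩
  have hZU : ∀ w ∈ Z, w ∈ S ∧ w ≠ x ∧ w ≠ y ∧ w ≠ b ∧ w ≠ b1 ∧ w ≠ b2 := by
    intro w hw
    rw [hZ] at hw
    rcases Relation.ReflTransGen.cases_tail hw with h | ⟨u, _, h⟩
    · rw [h]; exact hzU
    · exact h.2.1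
  have hzZ : z ∈ Z := (hZ z).2 Relation.ReflTransGen.refl
  have hstep : ∀ u ∈ Z, ∀ v, (v ∈ S ∧ v ≠ x ∧ v ≠ y ∧ v ≠ b ∧ v ≠ b1 ∧ v ≠ b2) →
      ((u, v) ∈ E ∨ (v, u) ∈ E) → v ∈ Z := by
    intro u hu v hv he
    rw [hZ]
    exact ((hZ u).1 hu).tail ⟨hZU u hu, hv, he⟩
  set A : Finset V := Z ∪ {b, x, y, b2} with hA
  set B : Finset V := S \ (Z ∪ {b}) with hB
  have hmA : ∀ v, v ∈ A ↔ v ∈ Z ∨ v = b ∨ v = x ∨ v = y ∨ v = b2 := by
    intro v
    rw [hA, mem_union, mem_insert, mem_insert, mem_insert, mem_singleton]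
  have hmB : ∀ v, v ∈ B ↔ v ∈ S ∧ v ∉ Z ∧ v ≠ b := by
    intro v
    rw [hB, mem_sdiff, mem_union, mem_singleton, not_or]
  have hxZ : x ∉ Z := fun h => (hZU x h).2.1 rfl
  have hyZ : y ∉ Z := fun h => (hZU y h).2.2.1 rfl
  have hbZ : b ∉ Z := fun h => (hZU b h).2.2.2.1 rfl
  have hb1Z : b1 ∉ Z := fun h => (hZU b1 h).2.2.2.2.1 rfl
  have hb2Z : b2 ∉ Z := fun h => (hZU b2 h).2.2.2.2.2 rfl
  -- cardinalities
  have hcA : A.card = Z.card + 4 := by
    rw [hA, card_union_of_disjoint]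
    · congr 1
      rw [card_insert_of_notMem, card_insert_of_notMem, card_insert_of_notMem, card_singleton]
      · rw [mem_singleton]; exact hne hcy hcb2
      · rw [mem_insert, mem_singleton, not_or]
        exact ⟨hxy, hne hcx hcb2⟩
      · rw [mem_insert, mem_insert, mem_singleton, not_or, not_or]
        exact ⟨(hne hcx hcb).symm, (hne hcy hcb).symm, hbb2⟩
    · rw [disjoint_right]
      intro v hv
      rw [mem_insert, mem_insert, mem_insert, mem_singleton] at hv
      rcases hv with rfl | rfl | rfl | rfl <;> assumption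
  have hZS : Z ∪ {b} ⊆ S := by
    intro v hv
    rw [mem_union, mem_singleton] at hv
    rcases hv with h | rfl
    · exact (hZU v h).1
    · exact hbS
  have hcB : B.card + (Z.card + 1) = S.card := by
    rw [hB, card_sdiff_of_subset hZS]
    have h1 : (Z ∪ {b}).card = Z.card + 1 := by
      rw [card_union_of_disjoint (by simpa using hbZ), card_singleton]
    have h2 := card_le_card hZS
    omega
  have hAS : A ⊆ S := by
    intro v hv
    rw [hmA] at hv
    rcases hv with h | rfl | rfl | rfl | rfl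
    · exact (hZU v h).1
    · exact hbS
    · exact hxS
    · exact hyS
    · exact hb2S
  have hAlt : A.card < S.card := by
    refine card_lt_card (ssubset_of_subset_of_ne hAS ?_)
    intro h
    have h1 : b1 ∈ A := by rw [h]; exact hb1S
    rw [hmA] at h1
    rcases h1 with h1 | h1 | h1 | h1 | h1
    · exact hb1Z h1
    · exact hbb1 h1.symm
    · exact hne hcx hcb1 h1.symm
    · exact hne hcy hcb1 h1.symm
    · exact hb12 h1
  have hB3 : 3 ≤ B.card := by
    have h1 : ({x, y, b2} : Finset V) ⊆ B := by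
      intro v hv
      rw [mem_insert, mem_insert, mem_singleton] at hv
      rw [hmB]
      rcases hv with rfl | rfl | rfl
      · exact ⟨hxS, hxZ, hne hcx hcb⟩
      · exact ⟨hyS, hyZ, hne hcy hcb⟩
      · exact ⟨hb2S, hb2Z, hbb2.symm⟩
    have h2 := card_le_card h1
    rwa [card_insert_of_notMem, card_insert_of_notMem, card_singleton] at h2
    · rw [mem_singleton]; exact hne hcy hcb2
    · rw [mem_insert, mem_singleton, not_or]
      exact ⟨hxy, hne hcx hcb2⟩
  set EA := E.filter (fun e => e.1 ∈ A ∧ e.2 ∈ A) with hEA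
  set EB := E.filter (fun e => e.1 ∈ B ∧ e.2 ∈ B) with hEB
  have h1 := hIH c A EA hAlt (by
    intro e he
    rw [hEA, mem_filter] at he
    exact ⟨he.2.1, he.2.2, (hE e he.1).2.2⟩) (wd_mono (filter_subset _ _) hWD) (by omega)
  have h2 := hIH c B EB (by omega) (by
    intro e he
    rw [hEB, mem_filter] at he
    exact ⟨he.2.1, he.2.2, (hE e he.1).2.2⟩) (wd_mono (filter_subset _ _) hWD) hB3
  -- every edge is inside of A or inside of B
  have h3 : E ⊆ EA ∪ EB := by
    intro e he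
    obtain ⟨u, v⟩ := e
    obtain ⟨huS, hvS, hcu, hcv⟩ := hE _ he
    rw [mem_union, hEA, hEB, mem_filter, mem_filter]
    simp only at huS hvS hcu hcv ⊢
    by_cases huZ : u ∈ Z
    · left
      refine ⟨he, (hmA u).2 (Or.inl huZ), ?_⟩
      rw [hmA]
      by_cases hvb : v = b
      · exact Or.inr (Or.inl hvb)
      by_cases hvb2 : v = b2
      · exact Or.inr (Or.inr (Or.inr (Or.inr hvb2)))
      have hvb1 : v ≠ b1 := by
        rintro rfl
        exact hno u huZ he
      exact Or.inl (hstep u huZ v ⟨hvS, (hne hcx hcv).symm, (hne hcy hcv).symm, hvb, hvb1, hvb2⟩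
        (Or.inl he))
    · by_cases hvZ : v ∈ Z
      · left
        refine ⟨he, ?_, (hmA v).2 (Or.inl hvZ)⟩
        rw [hmA]
        by_cases hux : u = x
        · exact Or.inr (Or.inr (Or.inl hux))
        by_cases huy : u = y
        · exact Or.inr (Or.inr (Or.inr (Or.inl huy)))
        exact absurd (hstep v hvZ u ⟨huS, hux, huy, hne hcu hcb, hne hcu hcb1, hne hcu hcb2⟩
          (Or.inr he)) huZ
      · by_cases hvb : v = b
        · left
          rw [hvb] at he
          rcases hnb u he with h | h | h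
          · rw [hvb]
            exact ⟨he, (hmA u).2 (Or.inr (Or.inr (Or.inl h))), (hmA b).2 (Or.inr (Or.inl rfl))⟩
          · rw [hvb]
            exact ⟨he, (hmA u).2 (Or.inr (Or.inr (Or.inr (Or.inl h)))),
              (hmA b).2 (Or.inr (Or.inl rfl))⟩
          · rw [h] at huZ
            exact absurd hzZ huZ
        · right
          exact ⟨he, (hmB u).2 ⟨huS, huZ, hne hcu hcb⟩, (hmB v).2 ⟨hvS, hvZ, hvb⟩⟩
  have h4 : ({(x, b2), (y, b2)} : Finset (V × V)) ⊆ EA ∩ EB := by
    intro e he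
    rw [mem_insert, mem_singleton] at he
    rw [mem_inter, hEA, hEB, mem_filter, mem_filter]
    have hb2A : b2 ∈ A := (hmA b2).2 (Or.inr (Or.inr (Or.inr (Or.inr rfl))))
    have hb2B : b2 ∈ B := (hmB b2).2 ⟨hb2S, hb2Z, hbb2.symm⟩
    rcases he with rfl | rfl
    · exact ⟨⟨hxb2, (hmA x).2 (Or.inr (Or.inr (Or.inl rfl))), hb2A⟩,
        ⟨hxb2, (hmB x).2 ⟨hxS, hxZ, hne hcx hcb⟩, hb2B⟩⟩
    · exact ⟨⟨hyb2, (hmA y).2 (Or.inr (Or.inr (Or.inr (Or.inl rfl)))), hb2A⟩,
        ⟨hyb2, (hmB y).2 ⟨hyS, hyZ, hne hcy hcb⟩, hb2B⟩⟩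
  have h5 := card_le_card h4
  rw [card_pair (fun h => hxy (congrArg Prod.fst h))] at h5
  have h6 := card_le_card h3
  have h7 := card_union_add_card_inter EA EB
  omega

/-- the contraction argument, for a black vertex of degree three -/
theorem black (hCTR : T_CTR) (hN33 : T_N33) [DecidableEq V] (c : V → Bool) (S : Finset V)
    (E : Finset (V × V)) (hIH : IH V S.card) (hE : Hy c S E) (hWD : WD E)
    (hcard : 2 * S.card < E.card + 4) (h5 : 5 ≤ S.card) (b : V)
    (hb : (E.filter fun e => e.2 = b).card = 3) : False := by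
  classical
  have himg : ((E.filter fun e => e.2 = b).image Prod.fst).card = 3 := by
    rw [card_image_of_injOn, hb]
    intro e he f hf hef
    rw [mem_coe, mem_filter] at he hf
    exact Prod.ext hef (he.2.trans hf.2.symm)
  obtain ⟨x, y, z, hxy, hxz, hyz, hxyz⟩ := card_eq_three.1 himg
  have hmem : ∀ w, (w, b) ∈ E ↔ w = x ∨ w = y ∨ w = z := by
    intro w
    have h1 : w ∈ (E.filter fun e => e.2 = b).image Prod.fst ↔ w = x ∨ w = y ∨ w = z := by
      rw [hxyz, mem_insert, mem_insert, mem_singleton]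
    rw [← h1, mem_image]
    constructor
    · intro h
      exact ⟨(w, b), mem_filter.2 ⟨h, rfl⟩, rfl⟩
    · rintro ⟨e, he, rfl⟩
      rw [mem_filter] at he
      rw [← he.2]
      exact he.1
  have hxb : (x, b) ∈ E := (hmem x).2 (Or.inl rfl)
  have hyb : (y, b) ∈ E := (hmem y).2 (Or.inr (Or.inl rfl))
  have hzb : (z, b) ∈ E := (hmem z).2 (Or.inr (Or.inr rfl))
  have hne : ∀ {u v : V}, c u = true → c v = false → u ≠ v := by
    rintro u v h1 h2 rfl
    rw [h1] at h2
    exact Bool.noConfusion h2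
  obtain ⟨hxS, hbS, hcx, hcb⟩ := hE _ hxb
  obtain ⟨hyS, _, hcy, _⟩ := hE _ hyb
  obtain ⟨hzS, _, hcz, _⟩ := hE _ hzb
  by_cases hc1 : (E.filter fun e => e.1 = x ∧ e.2 ≠ b ∧ (y, e.2) ∈ E).card ≤ 1
  · obtain ⟨E', hWD', hE', hcE'⟩ := hCTR E x y b hWD hxy (fun e he f hf => by
      exact hne (hE e he).2.2.1 (hE f hf).2.2.2) hxb hyb
    have hyS' : y ∈ S.erase b := mem_erase.2 ⟨hne hcy hcb, hyS⟩
    have hcS : ((S.erase b).erase y).card = S.card - 2 := by
      rw [card_erase_of_mem hyS', card_erase_of_mem hbS]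
      omega
    have h1 := hIH c ((S.erase b).erase y) E' (by omega) (by
      intro e he
      obtain ⟨h2, h3, h4⟩ := hE' e he
      have h6 : e.1 ∈ S ∧ e.2 ∈ S ∧ c e.1 = true ∧ c e.2 = false := by
        rcases h2 with h2 | ⟨h2, h7⟩
        · exact hE e h2
        · have h8 := hE _ h7
          exact ⟨by rw [h2]; exact hxS, h8.2.1, by rw [h2]; exact hcx, h8.2.2.2⟩
      refine ⟨?_, ?_, h6.2.2.1, h6.2.2.2⟩
      · rw [mem_erase, mem_erase]
        exact ⟨h3, hne h6.2.2.1 hcb, h6.1⟩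
      · rw [mem_erase, mem_erase]
        exact ⟨(hne hcy h6.2.2.2).symm, h4, h6.2.1⟩) hWD' (by omega)
    omega
  · push Not at hc1
    obtain ⟨e1, he1, e2, he2, h12⟩ := one_lt_card.1 hc1
    rw [mem_filter] at he1 he2
    obtain ⟨he1E, he1x, he1b, he1y⟩ := he1
    obtain ⟨he2E, he2x, he2b, he2y⟩ := he2
    set b1 := e1.2 with hb1
    set b2 := e2.2 with hb2
    have hxb1 : (x, b1) ∈ E := by rw [← he1x, hb1]; exact he1E
    have hxb2 : (x, b2) ∈ E := by rw [← he2x, hb2]; exact he2E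
    have hb12 : b1 ≠ b2 := fun h => h12 (Prod.ext (he1x.trans he2x.symm) h)
    let Z : Finset V := S.filter fun w => Relation.ReflTransGen (fun u v =>
      (u ∈ S ∧ u ≠ x ∧ u ≠ y ∧ u ≠ b ∧ u ≠ b1 ∧ u ≠ b2) ∧
      (v ∈ S ∧ v ≠ x ∧ v ≠ y ∧ v ≠ b ∧ v ≠ b1 ∧ v ≠ b2) ∧ ((u, v) ∈ E ∨ (v, u) ∈ E)) z w
    have hZ : ∀ w, w ∈ Z ↔ Relation.ReflTransGen (fun u v =>
      (u ∈ S ∧ u ≠ x ∧ u ≠ y ∧ u ≠ b ∧ u ≠ b1 ∧ u ≠ b2) ∧
      (v ∈ S ∧ v ≠ x ∧ v ≠ y ∧ v ≠ b ∧ v ≠ b1 ∧ v ≠ b2) ∧ ((u, v) ∈ E ∨ (v, u) ∈ E)) z w := by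
      intro w
      rw [mem_filter]
      refine ⟨fun h => h.2, fun h => ⟨?_, h⟩⟩
      rcases Relation.ReflTransGen.cases_tail h with h' | ⟨u, _, h'⟩
      · rw [h']; exact hzS
      · exact h'.2.1.1
    obtain ⟨w1, hw1, hw1E⟩ := claim c S E hIH hE hWD hcard x y z b b1 b2 hxy hxz hyz
      (Ne.symm he1b) (Ne.symm he2b) hb12 hxb hyb hzb (fun w h => (hmem w).1 h) hxb1 hxb2 he2y Z hZ
    have hZ' : ∀ w, w ∈ Z ↔ Relation.ReflTransGen (fun u v =>
      (u ∈ S ∧ u ≠ x ∧ u ≠ y ∧ u ≠ b ∧ u ≠ b2 ∧ u ≠ b1) ∧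
      (v ∈ S ∧ v ≠ x ∧ v ≠ y ∧ v ≠ b ∧ v ≠ b2 ∧ v ≠ b1) ∧ ((u, v) ∈ E ∨ (v, u) ∈ E)) z w := by
      intro w
      rw [hZ]
      have hrel : (fun u v => (u ∈ S ∧ u ≠ x ∧ u ≠ y ∧ u ≠ b ∧ u ≠ b1 ∧ u ≠ b2) ∧
          (v ∈ S ∧ v ≠ x ∧ v ≠ y ∧ v ≠ b ∧ v ≠ b1 ∧ v ≠ b2) ∧ ((u, v) ∈ E ∨ (v, u) ∈ E)) =
          (fun u v => (u ∈ S ∧ u ≠ x ∧ u ≠ y ∧ u ≠ b ∧ u ≠ b2 ∧ u ≠ b1) ∧
          (v ∈ S ∧ v ≠ x ∧ v ≠ y ∧ v ≠ b ∧ v ≠ b2 ∧ v ≠ b1) ∧ ((u, v) ∈ E ∨ (v, u) ∈ E)) := by
        funext u v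
        apply propext
        tauto
      rw [hrel]
    obtain ⟨w2, hw2, hw2E⟩ := claim c S E hIH hE hWD hcard x y z b b2 b1 hxy hxz hyz
      (Ne.symm he2b) (Ne.symm he1b) hb12.symm hxb hyb hzb (fun w h => (hmem w).1 h) hxb2 hxb1 he1y
      Z hZ'
    obtain ⟨pt, T, hJ, hD⟩ := hWD
    have hcb1 := (hE _ hxb1).2.2.2
    have hcb2 := (hE _ hxb2).2.2.2
    simp only at hcb1 hcb2
    have hzU : z ∈ S ∧ z ≠ x ∧ z ≠ y ∧ z ≠ b ∧ z ≠ b1 ∧ z ≠ b2 :=
      ⟨hzS, hxz.symm, hyz.symm, hne hcz hcb, hne hcz hcb1, hne hcz hcb2⟩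
    have hZU : ∀ w ∈ Z, w ∈ S ∧ w ≠ x ∧ w ≠ y ∧ w ≠ b ∧ w ≠ b1 ∧ w ≠ b2 := by
      intro w hw
      rw [hZ] at hw
      rcases Relation.ReflTransGen.cases_tail hw with h | ⟨u, _, h⟩
      · rw [h]; exact hzU
      · exact h.2.1
    have hzZ : z ∈ Z := (hZ z).2 Relation.ReflTransGen.refl
    have hreach : ∀ w ∈ Z, Relation.ReflTransGen
        (fun u v => u ∈ (↑Z : Set V) ∧ v ∈ (↑Z : Set V) ∧ ((u, v) ∈ E ∨ (v, u) ∈ E)) z w := by
      intro w hw
      rw [hZ] at hw
      induction hw with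
      | refl => exact Relation.ReflTransGen.refl
      | tail h1 h2 ih =>
        exact ih.tail ⟨mem_coe.2 ((hZ _).2 h1), mem_coe.2 ((hZ _).2 (h1.tail h2)), h2.2.2⟩
    let q : Fin 3 → V := ![b, b1, b2]
    let p : Fin 3 → V := ![x, y, z]
    let F : Fin 3 → Fin 3 → Set (V × V) := fun i j =>
      if i = 2 then {e | e ∈ E ∧ e.1 ∈ (↑Z : Set V) ∧ (e.2 = q j ∨ e.2 ∈ (↑Z : Set V))}
      else {(p i, q j)}
    have hqinj : ∀ j l, j ≠ l → q j ≠ q l := by
      intro j l hjl
      fin_cases j <;> fin_cases l <;> simp [q] at hjl ⊢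
      · exact Ne.symm he1b
      · exact Ne.symm he2b
      · exact he1b
      · exact hb12
      · exact he2b
      · exact hb12.symm
    have hqZ : ∀ j, q j ∉ Z := by
      intro j h
      have h1 := hZU _ h
      fin_cases j
      · exact h1.2.2.2.1 rfl
      · exact h1.2.2.2.2.1 rfl
      · exact h1.2.2.2.2.2 rfl
    have hedge : ∀ i j, i ≠ 2 → (p i, q j) ∈ E := by
      intro i j hi
      fin_cases i
      · fin_cases j
        · exact hxb
        · exact hxb1
        · exact hxb2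
      · fin_cases j
        · exact hyb
        · exact he1y
        · exact he2y
      · exact absurd rfl hi
    have hpZ : ∀ i, i ≠ 2 → p i ∉ Z := by
      intro i hi h
      have h1 := hZU _ h
      fin_cases i
      · exact h1.2.1 rfl
      · exact h1.2.2.1 rfl
      · exact hi rfl
    have hpinj : ∀ i k, i ≠ k → p i ≠ p k := by
      intro i k hik
      fin_cases i <;> fin_cases k <;> simp [p] at hik ⊢
      · exact hxy
      · exact hxz
      · exact hxy.symm
      · exact hyz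
      · exact hxz.symm
      · exact hyz.symm
    have hFE : ∀ i j, ∀ e ∈ F i j, e ∈ E := by
      intro i j e he
      by_cases hi : i = 2
      · simp only [F, if_pos hi] at he
        exact he.1
      · simp only [F, if_neg hi] at he
        rw [he]
        exact hedge i j hi
    refine hN33 (fun i => pt (p i)) (fun j => pt (q j)) (fun i j => ⋃ e ∈ F i j, T e.1 e.2) ?_ ?_
    · intro i j
      by_cases hi : i = 2
      · subst hi
        have hw : ∃ w ∈ Z, (w, q j) ∈ E := by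
          fin_cases j
          · exact ⟨z, hzZ, hzb⟩
          · exact ⟨w1, hw1, hw1E⟩
          · exact ⟨w2, hw2, hw2E⟩
        obtain ⟨w, hwZ, hwE⟩ := hw
        have h1 := chain E pt T hJ (↑Z : Set V) z w (q j) (mem_coe.2 hwZ) hwE (hreach w hwZ)
        have h2 : F 2 j = {e | e ∈ E ∧ e.1 ∈ (↑Z : Set V) ∧ (e.2 = q j ∨ e.2 ∈ (↑Z : Set V))} := by
          simp only [F, if_true]
        show JoinedIn (⋃ e ∈ F 2 j, T e.1 e.2) (pt z) (pt (q j))
        rw [h2]
        exact h1
      · have h2 : F i j = {(p i, q j)} := by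
          simp only [F, if_neg hi]
        show JoinedIn (⋃ e ∈ F i j, T e.1 e.2) (pt (p i)) (pt (q j))
        rw [h2, Set.biUnion_singleton]
        exact hJ _ (hedge i j hi)
    · intro i j k l hik hjl
      show Disjoint (⋃ e ∈ F i j, T e.1 e.2) (⋃ e ∈ F k l, T e.1 e.2)
      rw [Set.disjoint_iUnion₂_left]
      intro e he
      rw [Set.disjoint_iUnion₂_right]
      intro f hf
      refine hD e (hFE i j e he) f (hFE k l f hf) ?_ ?_
      · by_cases hi : i = 2
        · have hk : k ≠ 2 := fun h => hik (hi.trans h.symm)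
          simp only [F, if_pos hi] at he
          simp only [F, if_neg hk] at hf
          rw [hf]
          intro h
          exact hpZ k hk (by have h' : e.1 = p k := h; rw [← h']; exact mem_coe.1 he.2.1)
        · simp only [F, if_neg hi] at he
          rw [he]
          by_cases hk : k = 2
          · simp only [F, if_pos hk] at hf
            intro h
            exact hpZ i hi (by have h' : p i = f.1 := h; rw [h']; exact mem_coe.1 hf.2.1)
          · simp only [F, if_neg hk] at hf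
            rw [hf]
            exact hpinj i k hik
      · by_cases hi : i = 2
        · have hk : k ≠ 2 := fun h => hik (hi.trans h.symm)
          simp only [F, if_pos hi] at he
          simp only [F, if_neg hk] at hf
          rw [hf]
          rcases he.2.2 with h | h
          · rw [h]
            exact hqinj j l hjl
          · intro h'
            exact hqZ l (by have h'' : e.2 = q l := h'; rw [← h'']; exact mem_coe.1 h)
        · simp only [F, if_neg hi] at he
          rw [he]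
          by_cases hk : k = 2
          · simp only [F, if_pos hk] at hf
            rcases hf.2.2 with h | h
            · rw [h]
              exact hqinj j l hjl
            · intro h'
              exact hqZ j (by have h'' : q j = f.2 := h'; rw [h'']; exact mem_coe.1 h)
          · simp only [F, if_neg hk] at hf
            rw [hf]
            exact hqinj j l hjl

theorem small [DecidableEq V] (c : V → Bool) (S : Finset V) (E : Finset (V × V)) (hE : Hy c S E) :
    E.card ≤ (S.filter fun v => c v = true).card * (S.filter fun v => ¬ c v = true).card := by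
  rw [← card_product]
  refine card_le_card fun e he => ?_
  obtain ⟨h1, h2, h3, h4⟩ := hE e he
  rw [mem_product, mem_filter, mem_filter]
  exact ⟨⟨h1, h3⟩, h2, by rw [h4]; exact Bool.noConfusion⟩

theorem main (hCTR : T_CTR) (hN33 : T_N33) [DecidableEq V] (n : ℕ) : IH V n := by
  induction n with
  | zero => intro c S E h; omega
  | succ n ih =>
    intro c S E hlt hE hWD h3
    rcases Nat.lt_or_ge S.card n with hn | hn
    · exact ih c S E hn hE hWD h3
    have hSn : S.card = n := by omega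
    have hIH : IH V S.card := by rw [hSn]; exact ih
    clear ih hlt hn hSn n
    by_contra hcon
    push Not at hcon
    obtain ⟨E₀, hE₀, hc₀⟩ := exists_subset_card_eq (show 2 * S.card - 3 ≤ E.card by omega)
    have hy : Hy c S E₀ := fun e he => hE e (hE₀ he)
    have hw : WD E₀ := wd_mono hE₀ hWD
    have hsum := card_filter_add_card_filter_not (s := S) (fun v => c v = true)
    have hsm := small c S E₀ hy
    have h5 : 5 ≤ S.card := by
      by_contra h
      push Not at h
      have h4 : S.card = 3 ∨ S.card = 4 := by omega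
      set a := (S.filter fun v => c v = true).card
      set b := (S.filter fun v => ¬ c v = true).card
      have ha : a ≤ 4 := by omega
      rcases h4 with h4 | h4
      · have hb : b = 3 - a := by omega
        rw [hc₀, h4, hb] at hsm
        interval_cases a <;> omega
      · have hb : b = 4 - a := by omega
        rw [hc₀, h4, hb] at hsm
        interval_cases a <;> omega
    -- a vertex of small degree
    have hdeg : ∃ v ∈ S, (E₀.filter fun e => e.1 = v ∨ e.2 = v).card ≤ 3 := by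
      by_contra hno
      push Not at hno
      have e1 : E₀.card = ∑ v ∈ S, (E₀.filter fun e => e.1 = v).card :=
        card_eq_sum_card_fiberwise fun e he => (hy e he).1
      have e2 : E₀.card = ∑ v ∈ S, (E₀.filter fun e => e.2 = v).card :=
        card_eq_sum_card_fiberwise fun e he => (hy e he).2.1
      have e3 : ∑ v ∈ S, 4 ≤ ∑ v ∈ S, ((E₀.filter fun e => e.1 = v).card +
          (E₀.filter fun e => e.2 = v).card) := by
        refine sum_le_sum fun v hv => ?_
        have h1 := hno v hv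
        have h2 : (E₀.filter fun e => e.1 = v ∨ e.2 = v).card ≤
            (E₀.filter fun e => e.1 = v).card + (E₀.filter fun e => e.2 = v).card := by
          rw [filter_or]
          exact card_union_le _ _
        omega
      rw [sum_add_distrib, ← e1, ← e2, sum_const, smul_eq_mul] at e3
      omega
    obtain ⟨v, hvS, hv⟩ := hdeg
    rcases Nat.lt_or_ge (E₀.filter fun e => e.1 = v ∨ e.2 = v).card 3 with hv2 | hv3
    · have h1 := hIH c (S.erase v) (E₀.filter fun e => ¬ (e.1 = v ∨ e.2 = v)) (by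
          rw [card_erase_of_mem hvS]; omega) (by
          intro e he
          rw [mem_filter, not_or] at he
          obtain ⟨a1, a2, a3, a4⟩ := hy e he.1
          exact ⟨mem_erase.2 ⟨he.2.1, a1⟩, mem_erase.2 ⟨he.2.2, a2⟩, a3, a4⟩)
        (wd_mono (filter_subset _ _) hw) (by rw [card_erase_of_mem hvS]; omega)
      have h2 := card_filter_add_card_filter_not (s := E₀) (fun e => e.1 = v ∨ e.2 = v)
      rw [card_erase_of_mem hvS] at h1
      omega
    · have hv' : (E₀.filter fun e => e.1 = v ∨ e.2 = v).card = 3 := by omega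
      rcases Bool.eq_false_or_eq_true (c v) with hcv | hcv
      · -- white: swap
        have hy' : Hy (fun u => !c u) S (E₀.image Prod.swap) := by
          intro e he
          obtain ⟨f, hf, rfl⟩ := mem_image.1 he
          obtain ⟨a1, a2, a3, a4⟩ := hy f hf
          refine ⟨a2, a1, ?_, ?_⟩
          · show (!c f.2) = true
            rw [a4]; rfl
          · show (!c f.1) = false
            rw [a3]; rfl
        have hcs : (E₀.image Prod.swap).card = E₀.card :=
          card_image_of_injective _ Prod.swap_injective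
        refine black hCTR hN33 (fun u => !c u) S (E₀.image Prod.swap) hIH hy' (wd_swap hw)
          (by rw [hcs]; omega) h5 v ?_
        rw [filter_image, card_image_of_injective _ Prod.swap_injective, ← hv']
        congr 1
        refine filter_congr fun e he => ?_
        show e.1 = v ↔ _
        refine ⟨Or.inl, fun h => ?_⟩
        rcases h with h | h
        · exact h
        · exfalso
          have := (hy e he).2.2.2
          rw [h, hcv] at this
          exact Bool.noConfusion this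
      · refine black hCTR hN33 c S E₀ hIH hy hw (by omega) h5 v ?_
        rw [← hv']
        congr 1
        refine filter_congr fun e he => ?_
        refine ⟨Or.inr, fun h => ?_⟩
        rcases h with h | h
        · exfalso
          have := (hy e he).2.2.1
          rw [h, hcv] at this
          exact Bool.noConfusion this
        · exact h

theorem pf_EB (hCTR : T_CTR) (hN33 : T_N33) : T_EB := by
  intro V _ c S E hE hWD h3
  exact main hCTR hN33 (S.card + 1) c S E (Nat.lt_succ_self _) hE hWD h3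

end Pool.Agent.H1.BPL
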